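import Pool.Agent.Y799.SE.Eff
import Pool.Agent.J6H8.VT.All

/-!
# Multi-point Seshadri constants of nef divisors: the threshold `ρ + 20 √ρ`, `ρ = k² L²`

The assembly of `Pool.Agent.Y799.SE.Eff` with asymptotic independence on `P(1, 1, ρ)` as a
hypothesis, and the range `n ≥ ρ + 20 √ρ` of `Pool.Agent.J6H8.VT.PA_main`.
-/

set_option autoImplicit false

open MvPolynomial Module Filter Topology

namespace Pool.Agent.J6H57.NEF

open Pool.Agent.TH279.GR Pool.Agent.TH880.NB Pool.Agent.TH176.Nag Pool.Agent.TH306.N4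
open Pool.Agent.TH611.M5 Pool.Agent.Y799.SE

variable {a b : ℕ}

/-- the lower bound, from asymptotic independence on `P(1, 1, k² L²)` -/
theorem lower_of_PA {P : Ideal (Co a b)} {α β γ δ : ℕ} (hX : Surf P α β γ) (hnef : Nef P)
    (hδ : δ + 2 * β = α + γ) (hδ1 : 1 ≤ δ) {i : Fin (a + 1)} {j : Fin (b + 1)}
    (hi : X (Sum.inl i) ∉ P) (hj : X (Sum.inr j) ∉ P)
    {FF : Type} [Field FF] [Algebra ℂ FF] {π : Co a b →ₐ[ℂ] FF} (hπ : Mod P i j π)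
    {k : ℕ} {g₁ g₂ : FF} (hP : Pencil π k g₁ g₂) {n : ℕ} (hn1 : 1 ≤ n)
    (hPA : PA n 0 ((k ^ 2 * δ : ℕ) : ℝ)) :
    ∃ H : ℕ → MvPolynomial (Fin n × Ix a b) ℂ,
      (∃ w : Fin n → Ix a b → ℂ, Tuple i j P w ∧
        ∀ k, eval (fun p => w p.1 p.2) (H k) ≠ 0) ∧
      ∀ w : Fin n → Ix a b → ℂ, Tuple i j P w →
        (∀ k, eval (fun p => w p.1 p.2) (H k) ≠ 0) →
        Function.Injective w ∧
        ∀ (Q : Ideal (Co a b)) (dA dB : ℝ), P ≤ Q → Curv Q dA dB →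
          ∀ m : Fin n → ℝ, (∀ q, IsMult i j Q (w q) (m q)) →
            √((δ : ℝ) / n) * ∑ q, m q ≤ dA - dB := by
  have hδ0 : (0 : ℝ) < δ := by exact_mod_cast hδ1
  have hqδ : 0 < √(δ : ℝ) := Real.sqrt_pos.2 hδ0
  obtain ⟨hfin, hgr⟩ := growth hX hnef hδ hπ
  have hrk := Pool.Agent.TH13.N4.s3 a b P α β γ hX i j FF π hπ hfin δ hδ0 hgr k g₁ g₂ hP
  have hk := hP.hk
  obtain ⟨r, hr⟩ : ∃ r : ℕ, r = k ^ 2 * δ := ⟨_, rfl⟩
  have hr1 : 1 ≤ r := by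
    rw [hr]
    exact Nat.one_le_iff_ne_zero.2 (by positivity)
  have hrr : (r : ℝ) = (k : ℝ) ^ 2 * δ := by rw [hr]; push_cast; rfl
  have hn0 : (0 : ℝ) < n := by exact_mod_cast hn1
  have hqn : 0 < √(n : ℝ) := Real.sqrt_pos.2 hn0
  have hPAn : PA n 0 ((r : ℕ) : ℝ) := by rw [hr]; exact hPA
  choose m s T hs hnum hTc hTE hT using fun κ : ℕ =>
    num hk hδ0 hrr hrk hn1 hPAn (ε := 1 / ((κ : ℝ) + 1)) (by positivity)
  have hsec : ∀ κ : ℕ, ∃ w : Fin n → Ix a b → ℂ, Tuple i j P w ∧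
      SepV (chart i j P) (fun F => Sec π (m κ) (π F)) (s κ) w := fun κ =>
    Pool.Agent.TH471.N4.s4 j3 a b P α β γ hX i j FF π hπ hfin k g₁ g₂ hP n (m κ) (s κ)
      (by have := hs κ; omega) (T κ) (hTc κ) (hTE κ) (hT κ)
  have hVeq : ∀ κ, (fun F : Co a b => F ∈ (SecM π (m κ)).comap π.toLinearMap) =
      fun F => Sec π (m κ) (π F) := fun κ => by
    funext F
    exact propext ((Pool.Agent.TH880.N4.s0 a b P i j FF π hπ (m κ)).1 (π F))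
  obtain ⟨H, hH1, hH2⟩ := Pool.Agent.TH611.M5.s9 a b P hX.prime hX.hom i j hi hj
    (fun κ => (SecM π (m κ)).comap π.toLinearMap) n s hs (fun κ => by
      rw [hVeq κ]
      exact hsec κ)
  refine ⟨H, hH1, fun w hw hHw => ?_⟩
  obtain ⟨hinj, hsep⟩ := hH2 w hw hHw
  refine ⟨hinj, fun Q dA dB hPQ hQ μ hμ => ?_⟩
  have hd : dB ≤ dA := hnef Q dA dB hPQ hQ
  have hμ' : √((δ : ℝ) / n) * ∑ q, μ q = (√(δ : ℝ) * ∑ q, μ q) / √(n : ℝ) := by
    rw [Real.sqrt_div hδ0.le]; ring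
  rw [hμ', div_le_iff₀ hqn]
  have hall : ∀ κ : ℕ, √(δ : ℝ) * ∑ q, μ q ≤
      (1 + 1 / ((κ : ℝ) + 1)) * ((dA - dB) * √(n : ℝ)) := by
    intro κ
    have hsepκ := hsep κ
    rw [hVeq κ] at hsepκ
    have h61 := s6 a b P i j FF π hπ n (m κ) (s κ) (by have := hs κ; omega) w hw hinj hsepκ Q dA
      dB hPQ hQ hd μ hμ
    have hs1 : (1 : ℝ) < s κ := by exact_mod_cast hs κ
    have h62 : ((s κ : ℝ) - 1) * (√(δ : ℝ) * ∑ q, μ q) ≤
        ((s κ : ℝ) - 1) * ((1 + 1 / ((κ : ℝ) + 1)) * ((dA - dB) * √(n : ℝ))) := by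
      calc ((s κ : ℝ) - 1) * (√(δ : ℝ) * ∑ q, μ q) =
          √(δ : ℝ) * (((s κ : ℝ) - 1) * ∑ q, μ q) := by ring
        _ ≤ √(δ : ℝ) * (m κ * (dA - dB)) := mul_le_mul_of_nonneg_left h61 hqδ.le
        _ = (m κ * √(δ : ℝ)) * (dA - dB) := by ring
        _ ≤ ((1 + 1 / ((κ : ℝ) + 1)) * (√(n : ℝ) * ((s κ : ℝ) - 1))) * (dA - dB) :=
          mul_le_mul_of_nonneg_right (hnum κ) (by linarith)
        _ = _ := by ring
    exact le_of_mul_le_mul_left h62 (by linarith)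
  exact le_of_forall_eps hall

/-- the equality, from asymptotic independence on `P(1, 1, k² L²)` -/
theorem equality_of_PA {P : Ideal (Co a b)} {α β γ δ : ℕ} (hX : Surf P α β γ) (hnef : Nef P)
    (hδ : δ + 2 * β = α + γ) (hδ1 : 1 ≤ δ) {i : Fin (a + 1)} {j : Fin (b + 1)}
    (hi : X (Sum.inl i) ∉ P) (hj : X (Sum.inr j) ∉ P)
    {FF : Type} [Field FF] [Algebra ℂ FF] {π : Co a b →ₐ[ℂ] FF} (hπ : Mod P i j π)
    {k : ℕ} {g₁ g₂ : FF} (hP : Pencil π k g₁ g₂) {n : ℕ} (hn1 : 1 ≤ n)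
    (hPA : PA n 0 ((k ^ 2 * δ : ℕ) : ℝ)) :
    ∃ H : ℕ → MvPolynomial (Fin n × Ix a b) ℂ,
      (∃ w : Fin n → Ix a b → ℂ, Tuple i j P w ∧
        ∀ k, eval (fun p => w p.1 p.2) (H k) ≠ 0) ∧
      ∀ w : Fin n → Ix a b → ℂ, Tuple i j P w →
        (∀ k, eval (fun p => w p.1 p.2) (H k) ≠ 0) →
        Function.Injective w ∧ IsGLB (ratios i j P w) (√((δ : ℝ) / n)) ∧
        (¬ IsSquare (δ * n) → √((δ : ℝ) / n) ∉ ratios i j P w) := by
  classical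
  have hδr : ((α : ℝ) - 2 * β + γ) = δ := by
    have : ((δ + 2 * β : ℕ) : ℝ) = ((α + γ : ℕ) : ℝ) := by rw [hδ]
    push_cast at this
    linarith
  have hk := hP.hk
  obtain ⟨H, ⟨w0, hw0, hw0H⟩, hH⟩ := lower_of_PA hX hnef hδ hδ1 hi hj hπ hP hn1 hPA
  obtain ⟨h, hh, hsm⟩ := Pool.Agent.TH471.N4.u4 j3 a b P α β γ hX i j hi hj
  have hJ := chart_prime hX.prime hX.hom hi hj
  obtain ⟨z, hz, hzh⟩ := exists_point_countable (ι := Unit) (chart i j P) hJ (fun _ => h)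
    (fun _ => hh)
  let H' : ℕ → MvPolynomial (Fin n × Ix a b) ℂ := fun k =>
    Nat.casesOn k (∏ q : Fin n, rename (fun t => (q, t)) h) H
  have hev : ∀ w : Fin n → Ix a b → ℂ, eval (fun p => w p.1 p.2) (H' 0) =
      ∏ q, eval (w q) h := by
    intro w
    show eval (fun p => w p.1 p.2) (∏ q : Fin n, rename (fun t => (q, t)) h) = _
    rw [map_prod]
    refine Finset.prod_congr rfl fun q _ => ?_
    rw [eval_rename]
    rfl
  obtain ⟨w1, hw1, hw1H⟩ := exists_tuple_countable (chart i j P) hJ H' (fun k => by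
    rcases k with _ | k
    · refine ⟨fun _ => z, fun _ => hz, ?_⟩
      exact ne_of_eq_of_ne (hev fun _ => z) (Finset.prod_ne_zero_iff.2 fun q _ => hzh ())
    · exact ⟨w0, tuple_iff.1 hw0, hw0H k⟩)
  refine ⟨H', ⟨w1, tuple_iff.2 hw1, hw1H⟩, fun w hw hwH => ?_⟩
  obtain ⟨hinj, hlow⟩ := hH w hw (fun k => hwH (k + 1))
  have hsmq : ∀ q, SmoothAt P i j (w q) := by
    intro q
    refine hsm (w q) (tuple_iff.1 hw q) ?_
    have h3 := hwH 0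
    rw [hev] at h3
    exact Finset.prod_ne_zero_iff.1 h3 q (Finset.mem_univ q)
  have hU : Upper := upper_of Pool.Agent.TH880.N4.s0 Pool.Agent.TH279.GR.S7b.s7 u2
    (u3_of Pool.Agent.TH471.N4.v3) Pool.Agent.TH471.N4.u5 Pool.Agent.TH611.M5.u6
  have hup := hU a b P α β γ hX hnef (by omega) i j hi hj n hn1 w hw hsmq
  rw [hδr] at hup
  refine ⟨hinj, ⟨?_, ?_⟩, fun hsq => not_attained hX hnef hn1 hw hsmq hsq hlow⟩
  · rintro x ⟨Q, dA, dB, μ, hPQ, hQ, hμ, hpos, rfl⟩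
    rw [le_div_iff₀ hpos]
    exact hlow Q dA dB hPQ hQ μ hμ
  · intro y hy
    refine le_of_forall_pos_le_add fun ε hε => ?_
    obtain ⟨Q, dA, dB, μ, hPQ, hQ, hμ, hpos, hle⟩ := hup ε hε
    refine (hy ⟨Q, dA, dB, μ, hPQ, hQ, hμ, hpos, rfl⟩).trans ?_
    rw [div_le_iff₀ hpos]
    exact hle

end Pool.Agent.J6H57.NEF
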